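import Pool.Agent.H96.N1.Core

/-!
# MP_5ee2d0_ag, numerical dimension one: the number `N^4`

`N^4 ≤ 0`: otherwise `k N + D - M k F` is effective for every `M` and all large `k`, so
`k N + D + (- M k + g (k L.H.H + x.H.H)) F` is nef, and its product with the cube of a nef class which
is big on the fibres is negative for large `M` and `k`.
-/

namespace Pool.Agent.H96.N1.Pencil

/-- an integer polynomial of degree four is positive for large arguments -/
theorem quartic_pos {e a b c d k : ℤ} (he : 0 < e) (hk : 1 + |a| + |b| + |c| + |d| ≤ k) :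
    0 < k ^ 4 * e + k ^ 3 * a + k ^ 2 * b + k * c + d := by
  have ha := abs_nonneg a
  have hb := abs_nonneg b
  have hc := abs_nonneg c
  have hd := abs_nonneg d
  have h1 : 1 ≤ k := by linarith
  have h2 : 0 < k ^ 3 := by positivity
  have k2 : k ^ 2 ≤ k ^ 3 := pow_le_pow_right₀ h1 (by norm_num)
  have k1 : k ≤ k ^ 3 := by
    calc k = k ^ 1 := (pow_one k).symm
      _ ≤ k ^ 3 := pow_le_pow_right₀ h1 (by norm_num)
  have k0 : 1 ≤ k ^ 3 := one_le_pow₀ h1
  have e4 : k ^ 4 ≤ k ^ 4 * e := by nlinarith [pow_pos (by linarith : 0 < k) 4]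
  have ea : - (k ^ 3 * |a|) ≤ k ^ 3 * a := by nlinarith [neg_abs_le a]
  have eb : - (k ^ 3 * |b|) ≤ k ^ 2 * b := by
    have : - (k ^ 2 * |b|) ≤ k ^ 2 * b := by nlinarith [neg_abs_le b, sq_nonneg k]
    nlinarith
  have ec : - (k ^ 3 * |c|) ≤ k * c := by
    have : - (k * |c|) ≤ k * c := by nlinarith [neg_abs_le c]
    nlinarith
  have ed : - (k ^ 3 * |d|) ≤ d := by
    have := neg_abs_le d
    nlinarith
  have h3 : k ^ 3 * (1 + |a| + |b| + |c| + |d|) ≤ k ^ 3 * k := mul_le_mul_of_nonneg_left hk h2.le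
  have h4 : k ^ 4 = k ^ 3 * k := by ring
  nlinarith

section

variable {P : Type} [AddCommGroup P] {T : P → P → P → ℤ} {c : P → ℤ} {Nef : P → Prop}
  {H L : P} {Triv : (P → ℤ) → Prop} {Run : Prop} (S : Pencil T c Nef H L Triv Run)

theorem Q_zsmul (k : ℤ) (a b x y : S.B) : S.Q (k • a) b x y = k * S.Q a b x y := by
  have h := map_zsmul (AddMonoidHom.mk' (fun a => S.Q a b x y) (fun a a' => S.add a a' b x y)) k a
  simpa using h

/-- the first slot -/
theorem Q_comb (k : ℤ) (a b x y z : S.B) :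
    S.Q (k • a + b) x y z = k * S.Q a x y z + S.Q b x y z := by
  rw [S.add, S.Q_zsmul]

/-- the fourth power of a sum -/
theorem Q_pow (k : ℤ) (a b : S.B) : S.Q (k • a + b) (k • a + b) (k • a + b) (k • a + b) =
    k ^ 4 * S.Q a a a a + k ^ 3 * (4 * S.Q a a a b) + k ^ 2 * (6 * S.Q a a b b) +
      k * (4 * S.Q a b b b) + S.Q b b b b := by
  have e1 : ∀ x y z : S.B, S.Q (k • a + b) x y z = k * S.Q a x y z + S.Q b x y z :=
    fun x y z => S.Q_comb k a b x y z
  have e2 : ∀ x y z : S.B, S.Q x (k • a + b) y z = k * S.Q x a y z + S.Q x b y z := fun x y z => by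
    rw [S.symm12, e1, S.symm12 a, S.symm12 b]
  have e3 : ∀ x y z : S.B, S.Q x y (k • a + b) z = k * S.Q x y a z + S.Q x y b z := fun x y z => by
    rw [S.symm23, e2, S.symm23 x a, S.symm23 x b]
  have e4 : ∀ x y z : S.B, S.Q x y z (k • a + b) = k * S.Q x y z a + S.Q x y z b := fun x y z => by
    rw [S.symm34, e3, S.symm34 x y a, S.symm34 x y b]
  rw [e1, e2, e2, e3, e3, e3, e3, e4, e4, e4, e4, e4, e4, e4, e4]
  -- normal forms
  have a1 : S.Q a a b a = S.Q a a a b := S.symm34 _ _ _ _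
  have a2 : S.Q a b a a = S.Q a a a b := by rw [S.symm23, a1]
  have a3 : S.Q b a a a = S.Q a a a b := by rw [S.symm12, a2]
  have b1 : S.Q a b a b = S.Q a a b b := S.symm23 _ _ _ _
  have b2 : S.Q a b b a = S.Q a a b b := by rw [S.symm34, b1]
  have b3 : S.Q b a a b = S.Q a a b b := by rw [S.symm12, b1]
  have b4 : S.Q b a b a = S.Q a a b b := by rw [S.symm12, b2]
  have b5 : S.Q b b a a = S.Q a a b b := by rw [S.symm23, b4]
  have c1 : S.Q b a b b = S.Q a b b b := S.symm12 _ _ _ _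
  have c2 : S.Q b b a b = S.Q a b b b := by rw [S.symm23, c1]
  have c3 : S.Q b b b a = S.Q a b b b := by rw [S.symm34, c2]
  rw [a1, a2, a3, b1, b2, b3, b4, b5, c1, c2, c3]
  ring

/-- the third power of a sum -/
theorem T_pow (hT : Cubic T) (hLL : ∀ y, T L L y = 0) (k : ℤ) (x : P) :
    T (k • L + x) (k • L + x) (k • L + x) = k * (3 * T L x x) + T x x x := by
  have sm : ∀ (k : ℤ) (a x y : P), T (k • a) x y = k * T a x y := by
    intro k a x y
    have h := map_zsmul (AddMonoidHom.mk' (fun a => T a x y) (fun a a' => hT.add a a' x y)) k a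
    simpa using h
  have e1 : ∀ y z : P, T (k • L + x) y z = k * T L y z + T x y z := fun y z => by
    rw [hT.add, sm]
  have e2 : ∀ y z : P, T y (k • L + x) z = k * T y L z + T y x z := fun y z => by
    rw [hT.symm12, e1, hT.symm12 L, hT.symm12 x]
  have e3 : ∀ y z : P, T y z (k • L + x) = k * T y z L + T y z x := fun y z => by
    rw [hT.symm23, e2, hT.symm23 y L, hT.symm23 y x]
  rw [e1, e2, e2, e3, e3, e3, e3]
  have a1 : T L x L = 0 := by rw [hT.symm23, hLL]
  have a2 : T x L L = 0 := by rw [hT.symm12, a1]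
  have b1 : T x L x = T L x x := hT.symm12 _ _ _
  have b2 : T x x L = T L x x := by rw [hT.symm23, b1]
  rw [hLL, hLL, a1, a2, b1, b2]
  ring

/-- `N^4 ≤ 0` -/
theorem four (hT : Cubic T) (hLL : ∀ y, T L L y = 0) {D : S.B} (hD : S.Ext D)
    (hq : 0 < T L (S.rho D) (S.rho D)) : S.Q S.N S.N S.N S.N ≤ 0 := by
  by_contra hcon
  have hN : 0 < S.Q S.N S.N S.N S.N := not_le.1 hcon
  obtain ⟨A, hA, hα⟩ := S.exists_nef hT hLL hD hq
  obtain ⟨k0, hk0⟩ := hD
  obtain ⟨x, hx⟩ : ∃ x, x = S.rho D := ⟨_, rfl⟩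
  rw [← hx] at hq
  obtain ⟨α, hα'⟩ : ∃ α, α = T (S.rho A) (S.rho A) (S.rho A) := ⟨_, rfl⟩
  rw [← hα'] at hα
  -- the constant `M`
  obtain ⟨c0, hc0⟩ : ∃ c0 : ℤ, c0 = S.Q S.N A A A + S.g * T L H H * α := ⟨_, rfl⟩
  obtain ⟨M, hM⟩ : ∃ M : ℤ, M = |c0| + 1 := ⟨_, rfl⟩
  obtain ⟨c1, hc1⟩ : ∃ c1 : ℤ, c1 = S.Q D A A A + S.g * T x H H * α := ⟨_, rfl⟩
  have hM0 : 0 < M := by rw [hM]; positivity
  have hMα : c0 - M * α ≤ -1 := by
    have h1 : M ≤ M * α := by nlinarith
    have h2 := le_abs_self c0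
    linarith
  -- a large `k`
  obtain ⟨k, hk⟩ : ∃ k : ℤ, k = |k0| + |c1| + |T x x x| + (1 + |4 * S.Q S.N S.N S.N D| +
      |6 * S.Q S.N S.N D D - 12 * M * T L x x| + |4 * S.Q S.N D D D - 4 * M * T x x x| +
      |S.Q D D D D|) := ⟨_, rfl⟩
  have n0 := abs_nonneg k0
  have n1 := abs_nonneg c1
  have n2 := abs_nonneg (T x x x)
  have n3 := abs_nonneg (4 * S.Q S.N S.N S.N D)
  have n4 := abs_nonneg (6 * S.Q S.N S.N D D - 12 * M * T L x x)
  have n5 := abs_nonneg (4 * S.Q S.N D D D - 4 * M * T x x x)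
  have n6 := abs_nonneg (S.Q D D D D)
  have hrel : S.Rel (k • S.N + D) := hk0 k (by linarith [le_abs_self k0])
  have hrho : S.rho (k • S.N + D) = k • L + x := by
    rw [S.rho_eq, hx]
  have hcube : T (S.rho (k • S.N + D)) (S.rho (k • S.N + D)) (S.rho (k • S.N + D)) =
      k * (3 * T L x x) + T x x x := by
    rw [hrho, T_pow hT hLL]
  have hcube0 : 0 < T (S.rho (k • S.N + D)) (S.rho (k • S.N + D)) (S.rho (k • S.N + D)) := by
    rw [hcube]
    have h1 : k ≤ k * (3 * T L x x) := by nlinarith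
    have h2 := neg_abs_le (T x x x)
    linarith
  have heff : S.Eff (k • S.N + D + (-(M * k)) • S.F) := by
    refine S.eff _ _ hrel hcube0 ?_
    rw [hcube, S.Q_pow]
    have h1 : 0 < k ^ 4 * S.Q S.N S.N S.N S.N + k ^ 3 * (4 * S.Q S.N S.N S.N D) +
        k ^ 2 * (6 * S.Q S.N S.N D D - 12 * M * T L x x) +
        k * (4 * S.Q S.N D D D - 4 * M * T x x x) + S.Q D D D D :=
      quartic_pos hN (by linarith)
    calc (0 : ℤ) < _ := h1
      _ = _ := by ring
  have hnef := S.nef _ _ hrel hcube0 heff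
  have h5 := S.nonneg _ A A A hnef hA hA hA
  have hH : T (S.rho (k • S.N + D)) H H = k * T L H H + T x H H := by
    have sm : ∀ (k : ℤ) (a x y : P), T (k • a) x y = k * T a x y := by
      intro k a x y
      have h := map_zsmul (AddMonoidHom.mk' (fun a => T a x y) (fun a a' => hT.add a a' x y)) k a
      simpa using h
    rw [hrho, hT.add, sm]
  rw [hH, add_comm (k • S.N + D), S.Q_comb, S.Q_comb, S.fibre, ← hα'] at h5
  have h6 : (-(M * k) + S.g * (k * T L H H + T x H H)) * α +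
      (k * S.Q S.N A A A + S.Q D A A A) = k * (c0 - M * α) + c1 := by
    rw [hc0, hc1]
    ring
  rw [h6] at h5
  have h7 : k * (c0 - M * α) ≤ k * (-1) :=
    mul_le_mul_of_nonneg_left hMα (by linarith)
  have h8 := le_abs_self c1
  linarith

end

end Pool.Agent.H96.N1.Pencil
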