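import Pool.Agent.H96.N1.Core
import Pool.Agent.H60.N1.Ends
import Pool.Agent.H33.N1.Cone

/-!
# MP_5ee2d0_ag, numerical dimension one: the structures `Pencil`, `Ends`, `Primes` are consistent

A numerical model: the product of a curve and a threefold with two generators `L`, `M` of the nef cone,
`L.L = 0`, `L.M.M = 2`, `M.M.M = 2`, `H = L + M`; here `L` is effective, so it is no counterexample.
-/

namespace Pool.Agent.H15.N1.Toy

open Filter Pool.Agent.H96.N1 Pool.Agent.H60.N1 Pool.Agent.H33.N1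

abbrev P := ℤ × ℤ

/-- the cubic form -/
def T (p q r : P) : ℤ :=
  2 * (p.1 * q.2 * r.2 + p.2 * q.1 * r.2 + p.2 * q.2 * r.1) + 2 * (p.2 * q.2 * r.2)

def c (p : P) : ℤ := 24 * p.2

def Nef (p : P) : Prop := 0 ≤ p.1 ∧ 0 ≤ p.2

open Classical in
noncomputable def eff (p : P) : ℕ := if 0 ≤ p.1 ∧ 0 ≤ p.2 then 1 else 0

noncomputable def h (i : Fin 4) (p : P) : ℕ :=
  if i = 0 then eff p else if i = 3 then eff (-p) else 0

def L : P := (1, 0)

def H : P := (1, 1)

/-- degrees of the curves in the fibres -/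
def Triv (d : P → ℤ) : Prop := ∃ n : ℤ, 0 < n ∧ ∀ p, d p = n * p.2

abbrev B := ℤ × ℤ × ℤ

def rho : B →+ P where
  toFun b := (b.1, b.2.1)
  map_zero' := rfl
  map_add' _ _ := rfl

@[simp] theorem rho_apply (b : B) : rho b = (b.1, b.2.1) := rfl

/-- the quartic form -/
def Q (a b x y : B) : ℤ :=
  a.2.2 * T (rho b) (rho x) (rho y) + b.2.2 * T (rho a) (rho x) (rho y) +
    x.2.2 * T (rho a) (rho b) (rho y) + y.2.2 * T (rho a) (rho b) (rho x)

theorem T_nonneg {p q r : P} (hp : Nef p) (hq : Nef q) (hr : Nef r) : 0 ≤ T p q r := by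
  obtain ⟨p1, p2⟩ := hp
  obtain ⟨q1, q2⟩ := hq
  obtain ⟨r1, r2⟩ := hr
  unfold T
  positivity

theorem cubic : Cubic T where
  add := by intro x y a b; simp only [T, Prod.fst_add, Prod.snd_add]; ring
  symm12 := by intro x y z; simp only [T]; ring
  symm23 := by intro x y z; simp only [T]; ring

theorem LL (y : P) : T L L y = 0 := by simp [T, L]

def NefW (b : B) : Prop := 0 ≤ b.1 ∧ 0 ≤ b.2.1 ∧ 0 ≤ b.2.2

noncomputable def pencil : Pencil T c Nef H L Triv False where
  B := B
  rho := rho
  rho_add := map_add rho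
  N := (1, 0, 0)
  F := (0, 0, 1)
  rho_N := rfl
  rho_F := rfl
  Q := Q
  add := by
    intro a b x y z
    simp only [Q, T, rho_apply, Prod.fst_add, Prod.snd_add]
    ring
  symm12 := by intro a b x y; simp only [Q, T, rho_apply]; ring
  symm23 := by intro a b x y; simp only [Q, T, rho_apply]; ring
  symm34 := by intro a b x y; simp only [Q, T, rho_apply]; ring
  fibre := by intro a b x; simp [Q, T]
  NefW := NefW
  nonneg := by
    rintro a b x y ⟨a1, a2, a3⟩ ⟨b1, b2, b3⟩ ⟨x1, x2, x3⟩ ⟨y1, y2, y3⟩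
    have ha : Nef (rho a) := ⟨a1, a2⟩
    have hb : Nef (rho b) := ⟨b1, b2⟩
    have hx : Nef (rho x) := ⟨x1, x2⟩
    have hy : Nef (rho y) := ⟨y1, y2⟩
    have h1 := mul_nonneg a3 (T_nonneg hb hx hy)
    have h2 := mul_nonneg b3 (T_nonneg ha hx hy)
    have h3 := mul_nonneg x3 (T_nonneg ha hb hy)
    have h4 := mul_nonneg y3 (T_nonneg ha hb hx)
    unfold Q
    linarith
  Rel b := Nef (rho b)
  Eff := NefW
  g := 0
  eff := by
    intro D a hD h1 h2
    obtain ⟨d1, d2⟩ := hD
    have h3 : Q D D D D + 4 * a * T (rho D) (rho D) (rho D) =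
        4 * (D.2.2 + a) * T (rho D) (rho D) (rho D) := by
      unfold Q; ring
    rw [h3] at h2
    have h4 : 0 < D.2.2 + a := by
      by_contra hneg
      have h5 := mul_nonneg (neg_nonneg.2 (not_lt.1 hneg)) h1.le
      linarith
    refine ⟨?_, ?_, ?_⟩
    · simpa using d1
    · simpa using d2
    · have : (D + a • ((0, 0, 1) : B)).2.2 = D.2.2 + a := by simp
      rw [this]
      exact h4.le
  nef := by
    intro D a hD h1 h2
    simpa using h2
  ext := by
    rintro x ⟨k, ⟨h1, h2⟩, h3⟩
    refine Or.inl ⟨1, one_pos, (x.1, x.2, 0), ?_, -x.1, fun k hk => ⟨?_, ?_⟩⟩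
    · simp
    · simp; linarith
    · simpa [L] using h2
  cN := 0
  miyaoka := by
    intro D j0 hj
    have h2 : 0 ≤ D.2.1 := by
      have := (hj j0 le_rfl).2
      simpa using this
    refine ⟨0, 48 * D.2.1 * D.2.2, ?_⟩
    rintro j a ⟨-, -, h3⟩
    have h4 : 0 ≤ D.2.2 + a := by simpa using h3
    have h5 : j ^ 2 * 0 + j * 0 + 48 * D.2.1 * D.2.2 + 2 * a * (j * c L + c (rho D)) =
        48 * (D.2.1 * (D.2.2 + a)) := by
      simp only [c, L, rho_apply]
      ring
    rw [h5]
    positivity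
  Zero k v := v = 0
  zero := by
    rintro k v a b rfl
    simp [Q, T]
  zero_c := by
    rintro k v rfl
    simp [c]
  zero_triv := by
    rintro k v d hk rfl ⟨n, hn, hd⟩
    rw [hd]
    simp
  Psef x z := 0 ≤ z
  limit := by
    intro D x z hx hj
    by_contra hz
    have hz' : z ≤ -1 := by linarith [not_le.1 hz]
    obtain ⟨k, a, hk, ⟨-, -, h3⟩, h4⟩ := hj (2 + (x * D.2.2).natAbs) (by omega)
    have h5 : 0 ≤ D.2.2 + a := by simpa using h3
    have h6 : ((2 + (x * D.2.2).natAbs : ℕ) : ℤ) = 2 + |x * D.2.2| := by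
      push_cast
      simp
    rw [h6] at hk h4
    have h7 := abs_nonneg (x * D.2.2)
    have h8 := le_abs_self (x * D.2.2)
    have hk0 : 0 < k := by linarith
    have h9 : -(x * D.2.2) ≤ a * x := by nlinarith
    have h10 : k ≤ - (k * z) := by nlinarith
    have h11 : k - |x * D.2.2| ≤ a * x - k * z := by linarith
    have h12 : (2 + |x * D.2.2|) * (k - |x * D.2.2|) ≤ k :=
      (mul_le_mul_of_nonneg_left h11 (by linarith)).trans h4
    nlinarith

/-- the thresholds of the product, consistent with the theorems -/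
example : pencil.Q pencil.N pencil.N pencil.N pencil.N = 0 := by
  simp [pencil, Q]

def Amp (p : P) : Prop := 0 < p.1 ∧ 0 < p.2

theorem h0_L {k : ℤ} (hk : 0 < k) : h 0 (k • L) ≠ 0 := by
  simp [h, eff, L, hk.le]

noncomputable def curr (x z : ℤ) :
    Curr T h L pencil.Zero Amp (fun _ => 0) x z where
  Mod := P
  Hor _ := True
  Ver _ := False
  a w := w
  lg _ := 0
  ls _ := 0
  gg _ := 0
  lg_nonneg _ := le_rfl
  ls_nonneg _ := le_rfl
  l_sum w := by simp [LL]
  ss_nonneg w := by simp [LL]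
  index w _ _ _ := ⟨1, one_pos, h0_L one_pos⟩
  mm w := 2 * x * z * T L w w
  md _ := 0
  dd _ := 0
  md_nonneg _ := le_rfl
  dd_nonpos _ := le_rfl
  zariski w hw := hw.elim
  rr_nonneg w hw := (hw trivial).elim
  mm_zero hz w := by
    have h1 : (2 * z) • L = 0 := hz
    have h2 : 2 * z = 0 := by simpa [L] using h1
    have h3 : (z : ℝ) = 0 := by
      have : z = 0 := by omega
      exact_mod_cast this
    simp [h3]
  mm_amp B _ := ⟨B, 1, one_pos, by simp⟩
  chi _ := 1
  chi_zero := one_pos
  chi_linear _ := ⟨0, fun _ => by simp⟩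
  torsion_free hw := ((hw L).1 trivial).elim

noncomputable def ends : Ends T h L (pencil.Q pencil.N pencil.N pencil.N pencil.N) pencil.Zero
    pencil.Psef Amp (fun _ => 0) where
  hodge :=
    { r := 0
      mult := fun _ => 1
      mult_pos := fun _ => one_pos
      nn := fun _ => 0
      nn_nonneg := fun _ => le_rfl
      A := H
      s := 0
      nn_sum := by simp
      Fib := True
      fib := fun _ _ => trivial
      Ler := True
      ler := fun _ => trivial
      Prim := fun _ v => v = 0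
      prim := fun _ => ⟨1, 0, one_pos, rfl⟩
      riemann := by
        rintro k v rfl
        simp [pencil, Q, T]
      riemann_zero := by
        rintro k v rfl _
        rfl }
  zero_mul := by
    rintro j k v hj rfl
    exact smul_zero j
  zero_nsq := by
    rintro k v B rfl
    simp [T]
  curr x z _ _ := ⟨curr x z⟩

noncomputable def primes : Primes T h Nef Triv H L where
  add := by
    rintro C ⟨n, hn, hC⟩ x y
    rw [hC, hC, hC, Prod.snd_add]
    ring
  zero := by
    rintro C ⟨n, hn, hC⟩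
    rw [hC]
    simp [L]
  ample := by
    rintro C ⟨n, hn, hC⟩
    rw [hC]
    simpa [H] using hn
  Pr g := g = (1, 0) ∨ g = (0, 1)
  two := by
    rintro g g' (rfl | rfl) (rfl | rfl) _ <;> simp [T, H]
  pos := by
    rintro g (rfl | rfl) <;> simp [T, H]
  nef := by
    rintro g (rfl | rfl) <;> simp [T, H, L]
  triv := by
    rintro g (rfl | rfl) h0
    · exact ⟨2, by norm_num, fun p => by simp [T, H]⟩
    · simp [T, H, L] at h0
  top := by
    intro D hD
    have h1 : ¬ (0 ≤ (-D).1 ∧ 0 ≤ (-D).2) := by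
      rintro ⟨h2, h3⟩
      simp only [Prod.fst_neg, Prod.snd_neg] at h2 h3
      simp only [T, H] at hD
      linarith
    have h4 : eff (-D) = 0 := by
      unfold eff
      rw [if_neg h1]
    simp [h, h4]
  bog := by
    intro D _ _ _
    simp [h]
  cone := by
    intro D _ hC
    have h1 := hC (fun p => 1 * p.2) ⟨1, by norm_num, fun p => rfl⟩
    have h2 : 0 ≤ D.2 := by simpa using h1
    filter_upwards [eventually_ge_atTop D.1.natAbs] with k hk
    refine ⟨?_, ?_⟩
    · have h3 : (D + k • L).1 = D.1 + k := by simp [L]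
      rw [h3]
      have h4 : |D.1| ≤ k := by
        rw [Int.abs_eq_natAbs]
        exact_mod_cast hk
      linarith [neg_abs_le D.1]
    · simpa [L] using h2

end Pool.Agent.H15.N1.Toy
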